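import Mathlib
import Pool.Agent.H466R2.ChiNorm

/-!
# Upper bound for the chromatic number of `ℓ₁^d` and of every `d`-dimensional normed space

Random centres; a point `x` within `1/2` of a centre `y` is kept in the cell of `y` when every
other centre is at distance more than `3/2` from `x`.  Cells have diameter less than `1` and
distinct cells are more than `1` apart, and such a random set covers a `c 3^{-d}` fraction of
the space.
-/

theorem Pool.Agent.Results.MP_4e279d_co.UpperBoundThree.result :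
    (∀ d : ℕ, 1 ≤ d → ∃ k : ℕ, (k : ℝ) ≤ 101 * d * Real.log (d + 1) * 3 ^ d ∧
      ∃ c : (Fin d → ℝ) → Fin k, ∀ x y, ∑ i, |x i - y i| = 1 → c x ≠ c y) ∧
    (∀ (E : Type) [NormedAddCommGroup E] [NormedSpace ℝ E] [FiniteDimensional ℝ E]
      [MeasurableSpace E] [BorelSpace E] (d : ℕ), 1 ≤ d → Module.finrank ℝ E = d →
      ∃ k : ℕ, (k : ℝ) ≤ 101 * d * Real.log (d + 1) * 3 ^ d ∧
        ∃ c : E → Fin k, Measurable c ∧ ∀ x y, ‖x - y‖ = 1 → c x ≠ c y) := by
  constructor
  · intro d hd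
    obtain ⟨k, hk, c, _, hc⟩ := H466R2.norm_bound d hd
      (E := PiLp 1 (fun _ : Fin d => ℝ)) (by
        rw [LinearEquiv.finrank_eq (WithLp.linearEquiv 1 ℝ (Fin d → ℝ))]; simp)
    refine ⟨k, hk, fun x => c (WithLp.toLp 1 x), fun x y hxy => hc _ _ ?_⟩
    rw [PiLp.dist_eq_of_L1]
    simpa [Real.dist_eq] using hxy
  · intro E _ _ _ _ _ d hd hr
    obtain ⟨k, hk, c, hm, hc⟩ := H466R2.norm_bound d hd (E := E) hr
    exact ⟨k, hk, c, hm, fun x y hxy => hc x y (by rw [dist_eq_norm]; exact hxy)⟩
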